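import Mathlib
import Pool.Agent.H.MP_535799_an.C

namespace Pool.Agent.Results.MP_535799_an.NonSidon
open MeasureTheory

theorem result : ∃ Q : Set ℤ,
    (∀ A : Submodule ℂ (Lp ℂ 1 (AddCircle.haarAddCircle : Measure UnitAddCircle)),
      IsClosed (A : Set (Lp ℂ 1 (AddCircle.haarAddCircle : Measure UnitAddCircle))) →
      (∀ f ∈ A, ∀ g ∈ A, ∀ h : Lp ℂ 1 (AddCircle.haarAddCircle : Measure UnitAddCircle),
        (h =ᵐ[AddCircle.haarAddCircle]
          fun x => ∫ t, f t * g (x - t) ∂AddCircle.haarAddCircle) → h ∈ A) →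
      ∀ f ∈ A, (∀ n ∉ Q, fourierCoeff (f : UnitAddCircle → ℂ) n = 0) →
        f ∈ closure (Submodule.span ℂ
          {e : Lp ℂ 1 (AddCircle.haarAddCircle : Measure UnitAddCircle) | e ∈ A ∧
            e =ᵐ[AddCircle.haarAddCircle]
              fun x => ∫ t, e t * e (x - t) ∂AddCircle.haarAddCircle} :
          Set (Lp ℂ 1 (AddCircle.haarAddCircle : Measure UnitAddCircle)))) ∧
    ¬ ∃ C : ℝ, ∀ (F : Finset ℤ) (a : ℤ → ℂ), (F : Set ℤ) ⊆ Q →
      ∑ n ∈ F, ‖a n‖ ≤ C * ‖(∑ n ∈ F, a n • fourier n : C(UnitAddCircle, ℂ))‖ :=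
  ⟨Pool.Agent.H.MP_535799_an.QQ, Pool.Agent.H.MP_535799_an.propP,
    Pool.Agent.H.MP_535799_an.not_sidon⟩

end Pool.Agent.Results.MP_535799_an.NonSidon
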